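import Pool.Agent.Lib.MP_fb3619_al.Base2

/-!
# MP_fb3619_al: sub-configurations

`h : Cfg H K a b c`, `h' : Cfg H' K' a b c`, `H' ≤ H`, `K' = H' ∩ K`: the additive group `J h'` is
a subgroup of `J h`, and every finite subset of `J h` lies in `J h'` if `K'` contains a suitable
finite subset of `K`.
-/

set_option autoImplicit false

universe u

namespace Pool.Agent.FourGp

open Equiv

namespace H11

/-! ## Abstract formula for the collineations inducing f-maps -/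

section abs

variable {P : Type u} {g : Inc P}

/-- The value of an inducing collineation on all points of the type of the axis. -/
theorem ind_formula (h : g.IsGeo) {v x w₁ w₂ n m y : P} {φ : Perm P × Perm P}
    (hi : g.Ind v x w₁ w₂ n m φ) (hy : g.st y x) :
    φ.1 y = g.pr (g.cr v x) (g.cr y v) (g.fm w₁ w₂ n m (g.pr (g.cr v x) n y)) ∧
    ¬ g.st v x ∧ ¬ g.st y v ∧ ¬ g.st (g.cr v x) y ∧ g.st n (g.cr v x) ∧
    g.st (g.cr y v) (g.cr v x) ∧ g.st (g.pr (g.cr v x) n y) x := by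
  have hvx := hi.1.vx
  have hvn := hi.1.vn
  have hnx := hi.1.sn
  obtain ⟨t, ht, hs⟩ := h.label
  have i1 := h.perp_st _ _ hvx
  have i2 := h.perp_st _ _ hvn
  have c1 := h.cr_l _ _ i1
  have c2 := h.cr_r _ _ i1
  have c3 := h.cr_st_l i1
  have c4 := h.cr_st_r i1
  set w := g.cr v x with hw
  have iy : ¬ g.st y v := by
    rw [hs] at *; omega
  have d1 := h.cr_l _ _ iy
  have d2 := h.cr_r _ _ iy
  have d3 := h.cr_st_l iy
  have d4 := h.cr_st_r iy
  set m' := g.cr y v with hm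
  have t1 := ht v; have t2 := ht x; have t3 := ht n; have t4 := ht w; have t5 := ht m'
  have t6 := ht y
  have e1 : ¬ g.st w y := by rw [hs] at *; omega
  have e2 : g.st n w := by rw [hs] at *; omega
  have e3 : g.st m' w := by rw [hs] at *; omega
  have e4 : ¬ g.st m' x := by rw [hs] at *; omega
  have e5 : ¬ g.st w v := by rw [hs] at *; omega
  have k1 := h.pr_perp e1 e2
  have k2 := h.pr_st e1 e2
  have k3 := h.pr_pr (n := m') e1 e2
  have k4 := h.pr_self e1 e3 d1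
  have k5 : g.st (g.pr w n y) x := h.st_trans _ _ _ k2 hy
  have k6 : y = g.pr w m' (g.pr w n y) := by rw [k3, k4]
  have f1 := h.tw_pr hi.2.1.tw hvx c2 e5 d2 e4 k5
  rw [← k6] at f1
  refine ⟨?_, i1, iy, e1, e2, e3, k5⟩
  rw [f1, hi.2.2 _ k5 k1]

/-- Types of the intermediate points of an f-map. -/
theorem fm_types (h : g.IsGeo) {v x w₁ w₂ n m y : P} (ha : g.Adm v x w₁ w₂ n m)
    (hy : g.st y x) : ¬ g.st w₁ y ∧ g.st m w₁ ∧ ¬ g.st w₂ (g.pr w₁ m y) ∧ g.st n w₂ ∧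
    g.st (g.fm w₁ w₂ n m y) x := by
  obtain ⟨t, ht, hs⟩ := h.label
  have i1 := h.perp_st _ _ ha.vx
  have i2 := h.perp_st _ _ ha.xw₁
  have i3 := h.perp_st _ _ ha.xw₂
  have i4 := h.perp_st _ _ ha.vn
  have i5 := h.perp_st _ _ ha.vm
  have i6 := ha.sw₁
  have i7 := ha.sw₂
  have i8 := ha.sn
  have i9 := ha.sm
  have t1 := ht v; have t2 := ht x; have t3 := ht w₁; have t4 := ht w₂; have t5 := ht n
  have t6 := ht m
  have e1 : ¬ g.st w₁ y := by rw [hs] at *; omega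
  have e2 : g.st m w₁ := by rw [hs] at *; omega
  have e3 := h.pr_st e1 e2
  have e4 : ¬ g.st w₂ (g.pr w₁ m y) := by rw [hs] at *; omega
  have e5 : g.st n w₂ := by rw [hs] at *; omega
  have e6 := h.pr_st e4 e5
  exact ⟨e1, e2, e4, e5, h.st_trans _ _ _ e6 (h.st_trans _ _ _ e3 hy)⟩

end abs

/-! ## Sub-configurations -/

variable {G : Type u} [Group G]

/-- `H' ≤ H` and `K' = H' ∩ K`. -/
structure Sb (H K H' K' : Subgroup G) : Prop where
  le : H' ≤ H
  iff : ∀ x ∈ H', x ∈ K ↔ x ∈ K'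

variable {H K H' K' : Subgroup G} {a b c : G}

/-- The inclusion of the points. -/
def io (s : Sb H K H' K') (x : Pt H') : Pt H := ⟨x.1, s.le x.2.1, x.2.2⟩

@[simp] theorem io_val (s : Sb H K H' K') (x : Pt H') : (io s x).1 = x.1 := rfl

theorem io_inj (s : Sb H K H' K') {x y : Pt H'} (e : io s x = io s y) : x = y := by
  apply Subtype.ext
  have h1 := congrArg (fun z : Pt H => z.1) e
  exact h1

theorem st_io (s : Sb H K H' K') {x y : Pt H'} :
    (inc H K).st (io s x) (io s y) ↔ (inc H' K').st x y :=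
  s.iff _ (H'.mul_mem x.2.1 y.2.1)

theorem perp_io (s : Sb H K H' K') {x y : Pt H'} :
    (inc H K).perp (io s x) (io s y) ↔ (inc H' K').perp x y := Iff.rfl

theorem cr_io (h : Cfg H K a b c) (h' : Cfg H' K' a b c) (s : Sb H K H' K') {x y : Pt H'}
    (hxy : ¬ (inc H' K').st x y) :
    io s ((inc H' K').cr x y) = (inc H K).cr (io s x) (io s y) := by
  apply Subtype.ext
  rw [io_val, (part1_geom G H' K' a b c h').2.1 x y hxy,
    (part1_geom G H K a b c h).2.1 (io s x) (io s y) (fun e => hxy ((st_io s).1 e))]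
  rfl

theorem pr_io (h : Cfg H K a b c) (h' : Cfg H' K' a b c) (s : Sb H K H' K') {w m y : Pt H'}
    (hw : ¬ (inc H' K').st w y) (hm : (inc H' K').st m w) :
    io s ((inc H' K').pr w m y) = (inc H K).pr (io s w) (io s m) (io s y) := by
  have hg := h'.geo
  unfold Inc.pr
  rw [cr_io h h' s (hg.pr_line hw hm), cr_io h h' s (fun e => hw (hg.st_symm _ _ e))]

theorem adm_io (s : Sb H K H' K') {v x w₁ w₂ n m : Pt H'}
    (ha : (inc H' K').Adm v x w₁ w₂ n m) :
    (inc H K).Adm (io s v) (io s x) (io s w₁) (io s w₂) (io s n) (io s m) :=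
  ⟨ha.vx, ha.xw₁, ha.xw₂, ha.vn, ha.vm, fun e => ha.sw₁ ((st_io s).1 e),
    fun e => ha.sw₂ ((st_io s).1 e), fun e => ha.sn ((st_io s).1 e),
    fun e => ha.sm ((st_io s).1 e)⟩

theorem fm_io (h : Cfg H K a b c) (h' : Cfg H' K' a b c) (s : Sb H K H' K')
    {v x w₁ w₂ n m y : Pt H'} (ha : (inc H' K').Adm v x w₁ w₂ n m) (hy : (inc H' K').st y x) :
    io s ((inc H' K').fm w₁ w₂ n m y) =
      (inc H K).fm (io s w₁) (io s w₂) (io s n) (io s m) (io s y) := by
  obtain ⟨e1, e2, e4, e5, -⟩ := fm_types h'.geo ha hy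
  unfold Inc.fm
  rw [pr_io h h' s e4 e5, pr_io h h' s e1 e2]

theorem ind_io (h : Cfg H K a b c) (h' : Cfg H' K' a b c) (s : Sb H K H' K')
    {v x w₁ w₂ n m : Pt H'} {φ' : Perm (Pt H') × Perm (Pt H')}
    (hi : (inc H' K').Ind v x w₁ w₂ n m φ') :
    ∃ φ ∈ (inc H K).Nn (io s v) (io s x),
      ∀ y, (inc H' K').st y x → io s (φ'.1 y) = φ.1 (io s y) := by
  obtain ⟨φ, hφ⟩ := h.lemF _ _ _ _ _ _ (adm_io s hi.1)
  refine ⟨φ, Subgroup.subset_closure ⟨_, _, _, _, hφ⟩, fun y hy => ?_⟩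
  obtain ⟨f1, f2, f3, f4, f5, f6, f7⟩ := ind_formula h'.geo hi hy
  obtain ⟨g1, -⟩ := ind_formula h.geo hφ ((st_io s).2 hy)
  obtain ⟨-, -, -, -, t1⟩ := fm_types h'.geo hi.1 f7
  have hg := h'.geo
  have t2 : ¬ (inc H' K').st ((inc H' K').cr v x) ((inc H' K').fm w₁ w₂ n m
      ((inc H' K').pr ((inc H' K').cr v x) n y)) := fun e =>
    f4 (hg.st_trans _ _ _ e (hg.st_trans _ _ _ t1 (hg.st_symm _ _ hy)))
  rw [f1, g1, pr_io h h' s t2 f6, fm_io h h' s hi.1 f7, pr_io h h' s f4 f5, cr_io h h' s f2,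
    cr_io h h' s f3]

theorem nn_io (h : Cfg H K a b c) (h' : Cfg H' K' a b c) (s : Sb H K H' K') {v x : Pt H'}
    {φ' : Perm (Pt H') × Perm (Pt H')} (hφ' : φ' ∈ (inc H' K').Nn v x) :
    ∃ φ ∈ (inc H K).Nn (io s v) (io s x),
      ∀ y, (inc H' K').st y x → io s (φ'.1 y) = φ.1 (io s y) := by
  have hg := h'.geo
  unfold Inc.Nn at hφ'
  induction hφ' using Subgroup.closure_induction with
  | mem φ' hm =>
    obtain ⟨w₁, w₂, n, m, hi⟩ := hm
    exact ind_io h h' s hi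
  | one => exact ⟨1, Subgroup.one_mem _, fun _ _ => rfl⟩
  | mul φ' ψ' h1 h2 ih1 ih2 =>
    obtain ⟨φ, hφ, e1⟩ := ih1
    obtain ⟨ψ, hψ, e2⟩ := ih2
    refine ⟨φ * ψ, Subgroup.mul_mem _ hφ hψ, fun y hy => ?_⟩
    have h3 := (hg.nn_col h2).tp y
    change io s (φ'.1 (ψ'.1 y)) = φ.1 (ψ.1 (io s y))
    rw [e1 _ (hg.st_trans _ _ _ (hg.st_symm _ _ h3) hy), e2 y hy]
  | inv φ' h1 ih1 =>
    obtain ⟨φ, hφ, e1⟩ := ih1
    refine ⟨φ⁻¹, Subgroup.inv_mem _ hφ, fun y hy => ?_⟩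
    have h3 := (hg.col_inv (hg.nn_col h1)).tp y
    have h4 := e1 _ (hg.st_trans _ _ _ (hg.st_symm _ _ h3) hy)
    have h5 : φ'.1 (φ'⁻¹.1 y) = y := φ'.1.apply_symm_apply y
    rw [h5] at h4
    change io s (φ'⁻¹.1 y) = φ.1.symm (io s y)
    rw [h4, Equiv.symm_apply_apply]

theorem R1_io (s : Sb H K H' K') {y y' : Pt H'} (e : (inc H' K').R1 y y') :
    (inc H K).R1 (io s y) (io s y') := by
  obtain ⟨n, l, l', z, h1, h2, h3, h4, h5, h6, h7, h8, h9⟩ := e
  exact ⟨io s n, io s l, io s l', io s z, h1, h2, (st_io s).2 h3, h4, h5, h6, h7,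
    (st_io s).2 h8, fun e => h9 ((st_io s).1 e)⟩

theorem sim_io (s : Sb H K H' K') {y y' : Pt H'} (e : (inc H' K').sim y y') :
    (inc H K).sim (io s y) (io s y') := by
  induction e with
  | rel _ _ e => exact Relation.EqvGen.rel _ _ (R1_io s e)
  | refl _ => exact Relation.EqvGen.refl _
  | symm _ _ _ ih => exact Relation.EqvGen.symm _ _ ih
  | trans _ _ _ _ _ ih1 ih2 => exact Relation.EqvGen.trans _ _ _ ih1 ih2

theorem mem_of (h' : Cfg H' K' a b c) (s : Sb H K H' K') {x : G} (hx : x ∈ K') : x ∈ K :=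
  (s.iff x (h'.le hx)).2 hx

/-- The inclusion of the additive groups. -/
def iJ (h : Cfg H K a b c) (h' : Cfg H' K' a b c) (s : Sb H K H' K') (x : J h') : J h :=
  ⟨x.1, by
    have hK : x.1 ∈ K := mem_of h' s x.memK
    have hH : b * x.1 ∈ H := H.mul_mem h.hb (h.le hK)
    have hH2 : a * x.1 ∈ H := H.mul_mem h.ha (h.le hK)
    have h1 := sim_io s (J.sim_b h' x)
    exact ((part1_k0c G H K a b c h x.1 hK x.2.2 h.pa h.pb (io s (J.ap h' x))
      (io s (J.bp h' x)) rfl rfl rfl rfl).1).2 h1, x.2.2⟩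

@[simp] theorem iJ_val (h : Cfg H K a b c) (h' : Cfg H' K' a b c) (s : Sb H K H' K')
    (x : J h') : (iJ h h' s x).1 = x.1 := rfl

theorem bp_iJ (h : Cfg H K a b c) (h' : Cfg H' K' a b c) (s : Sb H K H' K') (x : J h') :
    J.bp h (iJ h h' s x) = io s (J.bp h' x) := Subtype.ext rfl

theorem iJ_inj (h : Cfg H K a b c) (h' : Cfg H' K' a b c) (s : Sb H K H' K') {x y : J h'}
    (e : iJ h h' s x = iJ h h' s y) : x = y := by
  apply J.ext
  have h1 := congrArg (fun z : J h => z.1) e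
  exact h1

theorem iJ_add (h : Cfg H K a b c) (h' : Cfg H' K' a b c) (s : Sb H K H' K') (x y : J h') :
    iJ h h' s (x + y) = iJ h h' s x + iJ h h' s y := by
  obtain ⟨φ', hφ', h1, -⟩ := J.exists_trl h' x
  obtain ⟨φ, hφ, h2⟩ := nn_io h h' s hφ'
  have ea : io s h'.pa = h.pa := Subtype.ext rfl
  have eb : io s h'.pb = h.pb := Subtype.ext rfl
  rw [ea, eb] at hφ
  have h3 : φ.1 h.pb = J.bp h (iJ h h' s x) := by
    have := h2 h'.pb (h'.geo.st_refl _)
    rw [h1, eb] at this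
    rw [← this, bp_iJ]
  have h4 := J.trl_b h hφ h3 (iJ h h' s y)
  rw [bp_iJ, ← h2 _ (h'.geo.st_symm _ _ (J.st_b h' y)), J.trl_b h' hφ' h1, ← bp_iJ h h' s] at h4
  exact J.bp_inj h h4

/-- The inclusion as a homomorphism. -/
noncomputable def iH (h : Cfg H K a b c) (h' : Cfg H' K' a b c) (s : Sb H K H' K') :
    J h' →+ J h := AddMonoidHom.mk' (iJ h h' s) (iJ_add h h' s)

@[simp] theorem iH_val (h : Cfg H K a b c) (h' : Cfg H' K' a b c) (s : Sb H K H' K')
    (x : J h') : (iH h h' s x).1 = x.1 := rfl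

theorem iH_inj (h : Cfg H K a b c) (h' : Cfg H' K' a b c) (s : Sb H K H' K') :
    Function.Injective (iH h h' s) := fun _ _ e => iJ_inj h h' s e

/-! ## Finite subsets come from finitely generated sub-configurations -/

theorem mem_desc (h : Cfg H K a b c) {x : G} (hx : x ∈ H) :
    ∃ k ∈ K, ∀ H' K' : Subgroup G, Cfg H' K' a b c → k ∈ K' → x ∈ H' := by
  have key : ∀ u : G, u * u = 1 → (∀ H' K' : Subgroup G, Cfg H' K' a b c → u ∈ H') →
      x * u ∈ K → ∃ k ∈ K, ∀ H' K' : Subgroup G, Cfg H' K' a b c → k ∈ K' → x ∈ H' := by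
    intro u hu hm hk
    refine ⟨x * u, hk, fun H' K' h' hk' => ?_⟩
    have h1 := H'.mul_mem (h'.le hk') (hm H' K' h')
    rwa [mul_assoc, hu, mul_one] at h1
  rcases h.top x hx with h1 | h1 | h1 | h1
  · exact ⟨x, h1, fun H' K' h' hk => h'.le hk⟩
  · exact key a h.haa (fun _ _ h' => h'.ha) h1
  · exact key b h.hbb (fun _ _ h' => h'.hb) h1
  · exact key c h.hcc (fun _ _ h' => h'.hc) h1

/-- A point of `H` which lies in `H'`. -/
def mkPt {H' : Subgroup G} (x : Pt H) (hx : x.1 ∈ H') : Pt H' := ⟨x.1, hx, x.2.2⟩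

theorem io_mkPt (s : Sb H K H' K') (x : Pt H) (hx : x.1 ∈ H') : io s (mkPt x hx) = x := rfl

theorem sim_desc (h : Cfg H K a b c) {y y' : Pt H} (e : (inc H K).sim y y') :
    ∃ F : Set G, F.Finite ∧ F ⊆ K ∧ ∀ (H' K' : Subgroup G), Cfg H' K' a b c →
      Sb H K H' K' → F ⊆ K' → ∀ (hy : y.1 ∈ H') (hy' : y'.1 ∈ H'),
      (inc H' K').sim (mkPt y hy) (mkPt y' hy') := by
  induction e with
  | rel y y' e =>
    obtain ⟨n, l, l', z, h1, h2, h3, h4, h5, h6, h7, h8, h9⟩ := e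
    obtain ⟨kn, hkn, en⟩ := mem_desc h n.2.1
    obtain ⟨kl, hkl, el⟩ := mem_desc h l.2.1
    obtain ⟨kl', hkl', el'⟩ := mem_desc h l'.2.1
    obtain ⟨kz, hkz, ez⟩ := mem_desc h z.2.1
    refine ⟨{kn, kl, kl', kz}, by simp, ?_, ?_⟩
    · rintro x (rfl | rfl | rfl | rfl) <;> assumption
    · intro H' K' h' s hF hy hy'
      have mn := en H' K' h' (hF (by simp))
      have ml := el H' K' h' (hF (by simp))
      have ml' := el' H' K' h' (hF (by simp))
      have mz := ez H' K' h' (hF (by simp))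
      refine Relation.EqvGen.rel _ _ ⟨mkPt n mn, mkPt l ml, mkPt l' ml', mkPt z mz, h1, h2,
        ?_, h4, h5, h6, h7, ?_, ?_⟩
      · exact (st_io s).1 h3
      · exact (st_io s).1 h8
      · exact fun e => h9 ((st_io s).2 e)
  | refl y => exact ⟨∅, Set.finite_empty, Set.empty_subset _, fun _ _ _ _ _ _ _ =>
      Relation.EqvGen.refl _⟩
  | symm y y' _ ih =>
    obtain ⟨F, h1, h2, h3⟩ := ih
    exact ⟨F, h1, h2, fun H' K' h' s hF hy hy' =>
      Relation.EqvGen.symm _ _ (h3 H' K' h' s hF hy' hy)⟩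
  | trans y z y' _ _ ih1 ih2 =>
    obtain ⟨F1, h1, h2, h3⟩ := ih1
    obtain ⟨F2, h4, h5, h6⟩ := ih2
    obtain ⟨k, hk, ek⟩ := mem_desc h z.2.1
    refine ⟨F1 ∪ F2 ∪ {k}, (h1.union h4).union (Set.finite_singleton k), ?_, ?_⟩
    · rintro x ((hx | hx) | hx)
      · exact h2 hx
      · exact h5 hx
      · rw [Set.mem_singleton_iff] at hx
        rw [hx]
        exact hk
    · intro H' K' h' s hF hy hy'
      have mz := ek H' K' h' (hF (Or.inr rfl))
      exact Relation.EqvGen.trans _ _ _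
        (h3 H' K' h' s (fun x hx => hF (Or.inl (Or.inl hx))) hy mz)
        (h6 H' K' h' s (fun x hx => hF (Or.inl (Or.inr hx))) mz hy')

/-- Every element of `J h` lies in `J h'` if `K'` contains a suitable finite set. -/
theorem J_desc (h : Cfg H K a b c) (x : J h) :
    ∃ F : Set G, F.Finite ∧ F ⊆ K ∧ ∀ (H' K' : Subgroup G) (h' : Cfg H' K' a b c)
      (s : Sb H K H' K'), F ⊆ K' → ∃ x' : J h', iJ h h' s x' = x := by
  obtain ⟨F, h1, h2, h3⟩ := sim_desc h (J.sim_b h x)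
  refine ⟨F ∪ {x.1}, h1.union (Set.finite_singleton _), ?_, ?_⟩
  · rintro y (hy | hy)
    · exact h2 hy
    · rw [Set.mem_singleton_iff] at hy
      rw [hy]
      exact x.memK
  · intro H' K' h' s hF
    have hx : x.1 ∈ K' := hF (Or.inr rfl)
    have hb : (J.bp h x).1 ∈ H' := H'.mul_mem h'.hb (h'.le hx)
    have ha : (J.ap h x).1 ∈ H' := H'.mul_mem h'.ha (h'.le hx)
    have h4 := h3 H' K' h' s (fun y hy => hF (Or.inl hy)) (show h.pb.1 ∈ H' from h'.hb) hb
    refine ⟨⟨x.1, ?_, x.2.2⟩, J.ext rfl⟩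
    exact ((part1_k0c G H' K' a b c h' x.1 hx x.2.2 h'.pa h'.pb (mkPt (J.ap h x) ha)
      (mkPt (J.bp h x) hb) rfl rfl rfl rfl).1).2 h4

theorem J_desc_fin (h : Cfg H K a b c) {ι : Type} [Finite ι] (x : ι → J h) :
    ∃ F : Set G, F.Finite ∧ F ⊆ K ∧ ∀ (H' K' : Subgroup G) (h' : Cfg H' K' a b c)
      (s : Sb H K H' K'), F ⊆ K' → ∃ x' : ι → J h', ∀ i, iJ h h' s (x' i) = x i := by
  choose F h1 h2 h3 using fun i => J_desc h (x i)
  refine ⟨⋃ i, F i, Set.finite_iUnion h1, Set.iUnion_subset h2, fun H' K' h' s hF => ?_⟩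
  choose x' hx' using fun i => h3 i H' K' h' s (fun y hy => hF (Set.mem_iUnion.2 ⟨i, hy⟩))
  exact ⟨x', hx'⟩

/-- `V`-invariant subgroups give sub-configurations. -/
theorem sb_HV (h : Cfg H K a b c) (N : Subgroup G) (hN : N ≤ K) (ha : ∀ n ∈ N, a * n * a ∈ N)
    (hb : ∀ n ∈ N, b * n * b ∈ N) (hc : ∀ n ∈ N, c * n * c ∈ N) :
    Cfg (HV N a b c) N a b c ∧ Sb H K (HV N a b c) N := by
  obtain ⟨h1, h2⟩ := part1_subc G H K a b c h N hN ha hb hc
  refine ⟨h1, ⟨?_, fun x hx => ⟨fun hk => ?_, fun hk => hN hk⟩⟩⟩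
  · refine sup_le (hN.trans h.le) ?_
    rw [Subgroup.closure_le]
    rintro x (rfl | rfl | rfl)
    · exact h.ha
    · exact h.hb
    · exact h.hc
  · have key : ∀ u : G, u ∉ K → ¬ (x * u ∈ N) := fun u hu hxu => hu (by
      have h3 := K.mul_mem (K.inv_mem hk) (hN hxu)
      rwa [← mul_assoc, inv_mul_cancel, one_mul] at h3)
    rcases (h2 x).1 hx with h3 | h3 | h3 | h3
    · exact h3
    · exact absurd h3 (key a h.ea)
    · exact absurd h3 (key b h.eb)
    · exact absurd h3 (key c h.ec)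

/-- A finite subset of `K` lies in a `V`-invariant subgroup generated by a finite subset. -/
theorem vclosure (h : Cfg H K a b c) (F : Set G) (hF : F.Finite) (hFK : F ⊆ K) :
    ∃ S : Set G, S.Finite ∧ S ⊆ K ∧ F ⊆ Subgroup.closure S ∧
      (∀ n ∈ Subgroup.closure S, a * n * a ∈ Subgroup.closure S) ∧
      (∀ n ∈ Subgroup.closure S, b * n * b ∈ Subgroup.closure S) ∧
      (∀ n ∈ Subgroup.closure S, c * n * c ∈ Subgroup.closure S) := by
  set S : Set G := F ∪ (fun x => a * x * a) '' F ∪ ((fun x => b * x * b) '' F ∪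
    (fun x => c * x * c) '' F) with hS
  have ha' : a⁻¹ = a := inv_eq_of_mul_eq_one_right h.haa
  have hb' : b⁻¹ = b := inv_eq_of_mul_eq_one_right h.hbb
  have hc' : c⁻¹ = c := inv_eq_of_mul_eq_one_right h.hcc
  have gen : ∀ u : G, u * u = 1 → (∀ x ∈ S, u * x * u ∈ S) →
      ∀ n ∈ Subgroup.closure S, u * n * u ∈ Subgroup.closure S := by
    intro u hu hs n hn
    have hui : u⁻¹ = u := inv_eq_of_mul_eq_one_right hu
    induction hn using Subgroup.closure_induction with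
    | mem x hx => exact Subgroup.subset_closure (hs x hx)
    | one => rw [mul_one, hu]; exact Subgroup.one_mem _
    | mul x y _ _ h1 h2 =>
      have : u * (x * y) * u = (u * x * u) * (u * y * u) := by
        calc u * (x * y) * u = u * x * 1 * y * u := by group
          _ = u * x * (u * u) * y * u := by rw [hu]
          _ = _ := by group
      rw [this]
      exact Subgroup.mul_mem _ h1 h2
    | inv x _ h1 =>
      have : u * x⁻¹ * u = (u * x * u)⁻¹ := by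
        rw [mul_inv_rev, mul_inv_rev, hui, mul_assoc]
      rw [this]
      exact Subgroup.inv_mem _ h1
  have e1 := h.haa; have e2 := h.hbb; have e3 := h.hcc
  have e4 := h.ab; have e5 := h.ba; have e6 := h.bc; have e7 := h.cb; have e8 := h.ca
  have e9 := h.ac
  have prod : ∀ u v w x : G, u * v = w → v * u = w → u * (v * x * v) * u = w * x * w := by
    intro u v w x h1 h2
    calc u * (v * x * v) * u = (u * v) * x * (v * u) := by group
      _ = w * x * w := by rw [h1, h2]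
  have sq : ∀ u x : G, u * u = 1 → u * (u * x * u) * u = x := by
    intro u x h1
    calc u * (u * x * u) * u = (u * u) * x * (u * u) := by group
      _ = x := by rw [h1, one_mul, mul_one]
  refine ⟨S, ((hF.union (hF.image _)).union ((hF.image _).union (hF.image _))), ?_,
    fun x hx => Subgroup.subset_closure (Or.inl (Or.inl hx)), gen a h.haa ?_, gen b h.hbb ?_,
    gen c h.hcc ?_⟩
  · have nn : ∀ u ∈ H, u * u = 1 → ∀ x ∈ K, u * x * u ∈ K := by
      intro u hu huu x hx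
      have := h.nor u hu x hx
      rwa [inv_eq_of_mul_eq_one_right huu] at this
    rintro x ((hx | ⟨y, hy, rfl⟩) | (⟨y, hy, rfl⟩ | ⟨y, hy, rfl⟩))
    · exact hFK hx
    · exact nn a h.ha h.haa y (hFK hy)
    · exact nn b h.hb h.hbb y (hFK hy)
    · exact nn c h.hc h.hcc y (hFK hy)
  · rintro x ((hx | ⟨y, hy, rfl⟩) | (⟨y, hy, rfl⟩ | ⟨y, hy, rfl⟩))
    · exact Or.inl (Or.inr ⟨x, hx, rfl⟩)
    · dsimp only; rw [sq a y e1]; exact Or.inl (Or.inl hy)
    · dsimp only; rw [prod a b c y e4 e5]; exact Or.inr (Or.inr ⟨y, hy, rfl⟩)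
    · dsimp only; rw [prod a c b y e9 e8]; exact Or.inr (Or.inl ⟨y, hy, rfl⟩)
  · rintro x ((hx | ⟨y, hy, rfl⟩) | (⟨y, hy, rfl⟩ | ⟨y, hy, rfl⟩))
    · exact Or.inr (Or.inl ⟨x, hx, rfl⟩)
    · dsimp only; rw [prod b a c y e5 e4]; exact Or.inr (Or.inr ⟨y, hy, rfl⟩)
    · dsimp only; rw [sq b y e2]; exact Or.inl (Or.inl hy)
    · dsimp only; rw [prod b c a y e6 e7]; exact Or.inl (Or.inr ⟨y, hy, rfl⟩)
  · rintro x ((hx | ⟨y, hy, rfl⟩) | (⟨y, hy, rfl⟩ | ⟨y, hy, rfl⟩))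
    · exact Or.inr (Or.inr ⟨x, hx, rfl⟩)
    · dsimp only; rw [prod c a b y e8 e9]; exact Or.inr (Or.inl ⟨y, hy, rfl⟩)
    · dsimp only; rw [prod c b a y e7 e6]; exact Or.inl (Or.inr ⟨y, hy, rfl⟩)
    · dsimp only; rw [sq c y e3]; exact Or.inl (Or.inl hy)

end H11

end Pool.Agent.FourGp
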