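import Pool.Agent.Lib.MP_fb3619_al.H11.Aut
import Pool.Agent.Lib.MP_fb3619_al.H11.Emb
import Pool.Agent.Lib.MP_fb3619_al.H99.Loc

/-!
# MP_fb3619_al: (F4). If `K` is locally finite and `e` moves the elements of `C_K(c)` by finitely
many elements only, then `(e - 1) J_c` is finite (additive index = multiplicative index).
-/

set_option autoImplicit false

universe u

namespace Pool.Agent.FourGp.H11

open Pool.Agent.FourGp.H99 (LF)

variable {G : Type u} [Group G] {H K : Subgroup G} {a b c e : G}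

/-- Finite subsets of a locally finite subgroup generate finite subgroups. -/
theorem closure_fin {K : Subgroup G} (hLF : LF K) {S : Set G} (hS : S.Finite) (hSK : S ⊆ K) :
    Finite (Subgroup.closure S) := by
  have h1 : Finite (Subgroup.closure ((Subtype.val : K → G) ⁻¹' S)) := by
    refine hLF _ ((Subgroup.fg_iff _).2 ⟨_, rfl, ?_⟩)
    exact hS.preimage Subtype.val_injective.injOn
  have h2 : Subgroup.closure S =
      (Subgroup.closure ((Subtype.val : K → G) ⁻¹' S)).map K.subtype := by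
    rw [MonoidHom.map_closure]
    congr 1
    ext x
    constructor
    · intro hx
      exact ⟨⟨x, hSK hx⟩, hx, rfl⟩
    · rintro ⟨y, hy, rfl⟩
      exact hy
  rw [h2]
  have h3 : ((Subgroup.closure ((Subtype.val : K → G) ⁻¹' S)).map K.subtype : Set G).Finite := by
    rw [Subgroup.coe_map]
    exact Set.Finite.image _ (Set.toFinite _)
  exact h3.to_subtype

/-- The counting step inside a finite configuration `h'`: if `x₀, …` are elements of `J h'` whose
values `e x - x` in `J h` are pairwise different, then their number is at most the number of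
values `x⁻¹ x^e`. -/
theorem count (h : Cfg H K a b c) (he : EA H K a b c e) {H' K' : Subgroup G}
    (h' : Cfg H' K' a b c) (s : Sb H K H' K') [Finite K'] (V : Set G) (hV : V.Finite)
    (hVe : ∀ x ∈ K, x * c = c * x → x⁻¹ * (e⁻¹ * x * e) ∈ V) {ι : Type} [Finite ι]
    (x : ι → J h') (hx : ∀ i j, eJ h he (iH h h' s (x i)) - iH h h' s (x i) =
      eJ h he (iH h h' s (x j)) - iH h h' s (x j) → i = j) :
    Nat.card ι ≤ V.ncard := by
  classical
  have fJ : Finite (J h') := by
    refine Finite.of_injective (fun x : J h' => (⟨x.1, x.memK⟩ : K')) ?_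
    intro x y hxy
    apply J.ext
    have h1 := congrArg (fun z : K' => z.1) hxy
    exact h1
  set C : Type u := {x : J h' // e⁻¹ * x.1 * e = x.1} with hC
  have fC : Finite C := inferInstance
  -- additive count
  have fixH : ∀ z : C, eJ h he (iH h h' s z.1) = iH h h' s z.1 := by
    intro z
    apply J.ext
    rw [eJ_val, iH_val]
    exact z.2
  have inj1 : Function.Injective (fun p : ι × C => x p.1 + p.2.1) := by
    rintro ⟨i, z⟩ ⟨j, w⟩ hp
    have hp' : x i + z.1 = x j + w.1 := hp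
    have h1 : iH h h' s (x i) + iH h h' s z.1 = iH h h' s (x j) + iH h h' s w.1 := by
      rw [← map_add, ← map_add, hp']
    have h2 : eJ h he (iH h h' s (x i)) + iH h h' s z.1 =
        eJ h he (iH h h' s (x j)) + iH h h' s w.1 := by
      have := congrArg (eJ h he) h1
      rwa [map_add, map_add, fixH, fixH] at this
    have h3 : i = j := by
      apply hx
      have h4 : eJ h he (iH h h' s (x i)) - iH h h' s (x i) =
          (eJ h he (iH h h' s (x i)) + iH h h' s z.1) -
          (iH h h' s (x i) + iH h h' s z.1) := by abel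
      rw [h4, h1, h2]
      abel
    subst h3
    have h5 : z.1 = w.1 := add_left_cancel hp'
    rw [Prod.mk.injEq]
    exact ⟨rfl, Subtype.ext h5⟩
  have le1 : Nat.card ι * Nat.card C ≤ Nat.card (J h') := by
    rw [← Nat.card_prod]
    exact Nat.card_le_card_of_injective _ inj1
  -- multiplicative count
  have vmem : ∀ y : J h', y.1⁻¹ * (e⁻¹ * y.1 * e) ∈ V := fun y =>
    hVe y.1 (mem_of h' s y.memK) y.2.2
  have mulmem : ∀ y z : J h', (y.1 * z.1⁻¹) ∈ K0 H' K' ∧ (y.1 * z.1⁻¹) * c = c * (y.1 * z.1⁻¹) := by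
    intro y z
    refine ⟨(K0 H' K').mul_mem y.2.1 ((K0 H' K').inv_mem z.2.1), ?_⟩
    have h2 := (J.jinv h' z).2.2
    rw [J.jinv_val] at h2
    rw [mul_assoc, h2, ← mul_assoc, y.2.2, mul_assoc]
  set rep : V → J h' := fun v =>
    if hv : ∃ y : J h', y.1⁻¹ * (e⁻¹ * y.1 * e) = v.1 then hv.choose else 0 with hrep
  have rep_spec : ∀ y : J h', (rep ⟨_, vmem y⟩).1⁻¹ * (e⁻¹ * (rep ⟨_, vmem y⟩).1 * e) =
      y.1⁻¹ * (e⁻¹ * y.1 * e) := by
    intro y
    have hv : ∃ z : J h', z.1⁻¹ * (e⁻¹ * z.1 * e) = y.1⁻¹ * (e⁻¹ * y.1 * e) := ⟨y, rfl⟩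
    have : rep ⟨_, vmem y⟩ = hv.choose := by
      simp only [hrep]
      rw [dif_pos hv]
    rw [this]
    exact hv.choose_spec
  have fixc : ∀ y z : J h', z.1⁻¹ * (e⁻¹ * z.1 * e) = y.1⁻¹ * (e⁻¹ * y.1 * e) →
      e⁻¹ * (y.1 * z.1⁻¹) * e = y.1 * z.1⁻¹ := by
    intro y z h1
    calc e⁻¹ * (y.1 * z.1⁻¹) * e = y.1 * (y.1⁻¹ * (e⁻¹ * y.1 * e)) * (e⁻¹ * z.1 * e)⁻¹ := by group
      _ = y.1 * (z.1⁻¹ * (e⁻¹ * z.1 * e)) * (e⁻¹ * z.1 * e)⁻¹ := by rw [h1]
      _ = y.1 * z.1⁻¹ := by group
  let f : J h' → V × C := fun y => (⟨_, vmem y⟩,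
    ⟨⟨y.1 * (rep ⟨_, vmem y⟩).1⁻¹, mulmem y _⟩, fixc y _ (rep_spec y)⟩)
  have inj2 : Function.Injective f := by
    intro y z hyz
    have h1 : (⟨_, vmem y⟩ : V) = ⟨_, vmem z⟩ := congrArg Prod.fst hyz
    have h2 : y.1 * (rep ⟨_, vmem y⟩).1⁻¹ = z.1 * (rep ⟨_, vmem z⟩).1⁻¹ :=
      congrArg (fun p : V × C => p.2.1.1) hyz
    rw [h1] at h2
    exact J.ext (mul_right_cancel h2)
  have fV : Finite V := hV.to_subtype
  have le2 : Nat.card (J h') ≤ V.ncard * Nat.card C := by
    have := Nat.card_le_card_of_injective _ inj2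
    rwa [Nat.card_prod, Nat.card_coe_set_eq] at this
  have hC0 : 0 < Nat.card C := by
    have : Nonempty C := ⟨⟨0, by rw [J.zero_val]; group⟩⟩
    exact Nat.card_pos
  exact Nat.le_of_mul_le_mul_right (le1.trans le2) hC0

/-- (F4): if `e` moves the elements of `C_K(c)` by finitely many elements only, then the additive
group `(e - 1) J_c` is finite. -/
theorem f4 (h : Cfg H K a b c) (hLF : LF K) (he : EA H K a b c e)
    (hi : {z | ∃ x ∈ K, x * c = c * x ∧ z = x⁻¹ * (e⁻¹ * x * e)}.Finite) :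
    {d : J h | ∃ x : J h, d = eJ h he x - x}.Finite := by
  classical
  set V : Set G := {z | ∃ x ∈ K, x * c = c * x ∧ z = x⁻¹ * (e⁻¹ * x * e)} with hV
  set T : Set (J h) := {d : J h | ∃ x : J h, d = eJ h he x - x} with hT
  by_contra hinf
  obtain ⟨S, hST, hSc⟩ := (Set.not_finite.1 hinf).exists_subset_card_eq (V.ncard + 1)
  have hch : ∀ d : S, ∃ x : J h, d.1 = eJ h he x - x := fun d => hST d.2
  choose x hx using hch
  let eS := S.equivFin
  obtain ⟨F, hF, hFK, hd⟩ := J_desc_fin h (fun i : Fin S.card => x (eS.symm i))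
  obtain ⟨F', hF', hF'K, hFF', ha, hb, hc⟩ := vclosure h F hF hFK
  have hle : Subgroup.closure F' ≤ K := (Subgroup.closure_le _).2 hF'K
  obtain ⟨h', s⟩ := sb_HV h (Subgroup.closure F') hle ha hb hc
  have fin : Finite (Subgroup.closure F') := closure_fin hLF hF' hF'K
  obtain ⟨x', hx'⟩ := hd _ _ h' s hFF'
  have h1 := count h he h' s V hi (fun y hy hyc => ⟨y, hy, hyc, rfl⟩) x' (by
    intro i j hij
    have e1 : ∀ i, iH h h' s (x' i) = x (eS.symm i) := hx'
    rw [e1, e1, ← hx, ← hx] at hij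
    have h2 : eS.symm i = eS.symm j := Subtype.ext hij
    exact eS.symm.injective h2)
  rw [Nat.card_eq_fintype_card, Fintype.card_fin, hSc] at h1
  omega

end Pool.Agent.FourGp.H11
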