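import Pool.Agent.Lib.MP_fb3619_al.Base2

/-!
# MP_fb3619_al: an element `e` of `G` normalising `H`, `K` and centralising `a, b, c` acts on the
additive groups `J h`.
-/

set_option autoImplicit false

universe u

namespace Pool.Agent.FourGp.H11

open Equiv

variable {G : Type u} [Group G]

/-- `e` normalises `H` and `K` and centralises `a, b, c`. -/
structure EA (H K : Subgroup G) (a b c e : G) : Prop where
  hH : ∀ x ∈ H, e⁻¹ * x * e ∈ H
  hH' : ∀ x ∈ H, e * x * e⁻¹ ∈ H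
  hK : ∀ x ∈ K, e⁻¹ * x * e ∈ K
  hK' : ∀ x ∈ K, e * x * e⁻¹ ∈ K
  ea : e * a = a * e
  eb : e * b = b * e
  ec : e * c = c * e

variable {H K : Subgroup G} {a b c e : G}

theorem EA.rot (he : EA H K a b c e) : EA H K b c a e :=
  ⟨he.hH, he.hH', he.hK, he.hK', he.eb, he.ec, he.ea⟩

theorem EA.swap (he : EA H K a b c e) : EA H K b a c e :=
  ⟨he.hH, he.hH', he.hK, he.hK', he.eb, he.ea, he.ec⟩

theorem conj_fix {a e : G} (ea : e * a = a * e) : e⁻¹ * a * e = a := by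
  rw [mul_assoc, ← ea, ← mul_assoc, inv_mul_cancel, one_mul]

/-- Conjugation by `e` on the points. -/
def eP (he : EA H K a b c e) : Perm (Pt H) where
  toFun x := ⟨e⁻¹ * x.1 * e, he.hH _ x.2.1, by
    have := x.2.2.1
    calc e⁻¹ * x.1 * e * (e⁻¹ * x.1 * e) = e⁻¹ * (x.1 * x.1) * e := by group
      _ = 1 := by rw [this]; group, by
    intro h1
    apply x.2.2.2
    calc x.1 = e * (e⁻¹ * x.1 * e) * e⁻¹ := by group
      _ = 1 := by rw [h1]; group⟩
  invFun x := ⟨e * x.1 * e⁻¹, he.hH' _ x.2.1, by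
    have := x.2.2.1
    calc e * x.1 * e⁻¹ * (e * x.1 * e⁻¹) = e * (x.1 * x.1) * e⁻¹ := by group
      _ = 1 := by rw [this]; group, by
    intro h1
    apply x.2.2.2
    calc x.1 = e⁻¹ * (e * x.1 * e⁻¹) * e := by group
      _ = 1 := by rw [h1]; group⟩
  left_inv x := by apply Subtype.ext; dsimp only; group
  right_inv x := by apply Subtype.ext; dsimp only; group

@[simp] theorem eP_val (he : EA H K a b c e) (x : Pt H) : (eP he x).1 = e⁻¹ * x.1 * e := rfl

theorem conj_mem_of (h : Cfg H K a b c) (he : EA H K a b c e) {x : G} (hx : x ∈ H) :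
    x⁻¹ * (e⁻¹ * x * e) ∈ K := by
  have key : ∀ u : G, u * u = 1 → e * u = u * e → (∀ k ∈ K, u * k * u ∈ K) → x * u ∈ K →
      x⁻¹ * (e⁻¹ * x * e) ∈ K := by
    intro u hu heu hn hk
    have hui : u⁻¹ = u := inv_eq_of_mul_eq_one_right hu
    have h1 : e⁻¹ * x * e = (e⁻¹ * (x * u) * e) * u := by
      calc e⁻¹ * x * e = e⁻¹ * (x * (u * u)) * e := by rw [hu, mul_one]
        _ = e⁻¹ * (x * u) * (u * e) := by group
        _ = e⁻¹ * (x * u) * (e * u) := by rw [heu]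
        _ = (e⁻¹ * (x * u) * e) * u := by group
    have h2 : x⁻¹ = u * (x * u)⁻¹ := by group
    rw [h1, h2]
    have h3 : u * (x * u)⁻¹ * (e⁻¹ * (x * u) * e * u) =
        u * ((x * u)⁻¹ * (e⁻¹ * (x * u) * e)) * u := by group
    rw [h3]
    exact hn _ (K.mul_mem (K.inv_mem hk) (he.hK _ hk))
  have hn : ∀ u ∈ H, u * u = 1 → ∀ k ∈ K, u * k * u ∈ K := by
    intro u hu huu k hk
    have := h.nor u hu k hk
    rwa [inv_eq_of_mul_eq_one_right huu] at this
  rcases h.top x hx with h1 | h1 | h1 | h1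
  · exact K.mul_mem (K.inv_mem h1) (he.hK _ h1)
  · exact key a h.haa he.ea (hn a h.ha h.haa) h1
  · exact key b h.hbb he.eb (hn b h.hb h.hbb) h1
  · exact key c h.hcc he.ec (hn c h.hc h.hcc) h1

/-- Conjugation by `e` is a collineation. -/
theorem eP_col (h : Cfg H K a b c) (he : EA H K a b c e) :
    (inc H K).Col (eP he, eP he) := by
  have t : ∀ x : Pt H, (inc H K).st x (eP he x) := by
    intro x
    change x.1 * (e⁻¹ * x.1 * e) ∈ K
    have h1 := conj_mem_of h he x.2.1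
    have h2 : x.1⁻¹ = x.1 := inv_eq_of_mul_eq_one_right x.2.2.1
    rwa [h2] at h1
  refine ⟨t, t, fun x y => ?_⟩
  change (x.1 * y.1 = y.1 * x.1 ∧ x.1 ≠ y.1) ↔
    (e⁻¹ * x.1 * e * (e⁻¹ * y.1 * e) = e⁻¹ * y.1 * e * (e⁻¹ * x.1 * e) ∧
      e⁻¹ * x.1 * e ≠ e⁻¹ * y.1 * e)
  have e1 : e⁻¹ * x.1 * e * (e⁻¹ * y.1 * e) = e⁻¹ * (x.1 * y.1) * e := by group
  have e2 : e⁻¹ * y.1 * e * (e⁻¹ * x.1 * e) = e⁻¹ * (y.1 * x.1) * e := by group
  rw [e1, e2]
  refine and_congr ?_ (not_congr ?_)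
  · constructor
    · intro h1; rw [h1]
    · intro h1; exact mul_left_cancel (mul_right_cancel h1)
  · constructor
    · intro h1; rw [h1]
    · intro h1; exact mul_left_cancel (mul_right_cancel h1)

theorem eP_sim (h : Cfg H K a b c) (he : EA H K a b c e) {x y : Pt H}
    (hs : (inc H K).sim x y) : (inc H K).sim (eP he x) (eP he y) :=
  ((part1_eqv _ _ h.geo).2.2 _ (eP_col h he) x y hs).1

/-- `e` normalises `K0 H K`. -/
theorem K0_conj (h : Cfg H K a b c) (he : EA H K a b c e) {k : G} (hk : k ∈ K0 H K) :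
    e⁻¹ * k * e ∈ K0 H K := by
  obtain ⟨h1, h2, h3⟩ := hk
  refine ⟨he.hK _ h1, he.hH _ h2, fun x y hxy => ?_⟩
  have h4 := h3 ((eP he).symm x) ((eP he).symm y) (by
    change e * y.1 * e⁻¹ = k⁻¹ * (e * x.1 * e⁻¹) * k
    rw [hxy]
    group)
  have h5 := eP_sim h he h4
  rwa [Equiv.apply_symm_apply, Equiv.apply_symm_apply] at h5

theorem comm_conj {c e x : G} (ec : e * c = c * e) (hx : x * c = c * x) :
    e⁻¹ * x * e * c = c * (e⁻¹ * x * e) := by
  have h1 : e⁻¹ * c = c * e⁻¹ := by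
    calc e⁻¹ * c = e⁻¹ * (c * e) * e⁻¹ := by group
      _ = e⁻¹ * (e * c) * e⁻¹ := by rw [ec]
      _ = c * e⁻¹ := by group
  calc e⁻¹ * x * e * c = e⁻¹ * x * (e * c) := by group
    _ = e⁻¹ * (x * c) * e := by rw [ec]; group
    _ = (e⁻¹ * c) * x * e := by rw [hx]; group
    _ = c * (e⁻¹ * x * e) := by rw [h1]; group

/-- The action on `J h` as a map. -/
def eJf (h : Cfg H K a b c) (he : EA H K a b c e) (x : J h) : J h :=
  ⟨e⁻¹ * x.1 * e, K0_conj h he x.2.1, comm_conj he.ec x.2.2⟩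

theorem eP_bp (h : Cfg H K a b c) (he : EA H K a b c e) (x : J h) :
    eP he (J.bp h x) = J.bp h (eJf h he x) := by
  apply Subtype.ext
  change e⁻¹ * (b * x.1) * e = b * (e⁻¹ * x.1 * e)
  have h1 : e⁻¹ * b = b * e⁻¹ := by
    calc e⁻¹ * b = e⁻¹ * (b * e) * e⁻¹ := by group
      _ = e⁻¹ * (e * b) * e⁻¹ := by rw [he.eb]
      _ = b * e⁻¹ := by group
  calc e⁻¹ * (b * x.1) * e = (e⁻¹ * b) * x.1 * e := by group
    _ = b * (e⁻¹ * x.1 * e) := by rw [h1]; group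

theorem eP_ap (h : Cfg H K a b c) (he : EA H K a b c e) (x : J h) :
    eP he (J.ap h x) = J.ap h (eJf h he x) := by
  apply Subtype.ext
  change e⁻¹ * (a * x.1) * e = a * (e⁻¹ * x.1 * e)
  have h1 : e⁻¹ * a = a * e⁻¹ := by
    calc e⁻¹ * a = e⁻¹ * (a * e) * e⁻¹ := by group
      _ = e⁻¹ * (e * a) * e⁻¹ := by rw [he.ea]
      _ = a * e⁻¹ := by group
  calc e⁻¹ * (a * x.1) * e = (e⁻¹ * a) * x.1 * e := by group
    _ = a * (e⁻¹ * x.1 * e) := by rw [h1]; group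

theorem eP_pa (h : Cfg H K a b c) (he : EA H K a b c e) : eP he h.pa = h.pa :=
  Subtype.ext (conj_fix he.ea)

theorem eP_pb (h : Cfg H K a b c) (he : EA H K a b c e) : eP he h.pb = h.pb :=
  Subtype.ext (conj_fix he.eb)

theorem eP_pc (h : Cfg H K a b c) (he : EA H K a b c e) : eP he h.pc = h.pc :=
  Subtype.ext (conj_fix he.ec)

theorem eJf_add (h : Cfg H K a b c) (he : EA H K a b c e) (x y : J h) :
    eJf h he (x + y) = eJf h he x + eJf h he y := by
  obtain ⟨φ, hφ, h1, -⟩ := J.exists_trl h x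
  have h2 := (part1_eqv _ _ h.geo).1 _ (eP_col h he) h.pa h.pb φ hφ
  have e1 : (eP he, eP he).1 h.pa = h.pa := eP_pa h he
  have e2 : (eP he, eP he).2 h.pb = h.pb := eP_pb h he
  rw [e1, e2] at h2
  set ψ := (eP he, eP he) * φ * (eP he, eP he)⁻¹ with hψ
  have h3 : ∀ z : Pt H, ψ.1 (eP he z) = eP he (φ.1 z) := by
    intro z
    change eP he (φ.1 ((eP he).symm (eP he z))) = eP he (φ.1 z)
    rw [Equiv.symm_apply_apply]
  have h4 : ψ.1 h.pb = J.bp h (eJf h he x) := by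
    have := h3 h.pb
    rw [eP_pb] at this
    rw [this, h1, eP_bp]
  have h5 := J.trl_b h h2 h4 (eJf h he y)
  rw [← eP_bp, h3, J.trl_b h hφ h1, eP_bp] at h5
  exact J.bp_inj h h5

/-- The action of `e` on the additive group `J h`. -/
noncomputable def eJ (h : Cfg H K a b c) (he : EA H K a b c e) : J h →+ J h :=
  AddMonoidHom.mk' (eJf h he) (eJf_add h he)

@[simp] theorem eJ_val (h : Cfg H K a b c) (he : EA H K a b c e) (x : J h) :
    (eJ h he x).1 = e⁻¹ * x.1 * e := rfl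

end Pool.Agent.FourGp.H11
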