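import Pool.Agent.Lib.MP_fb3619_al.H90.ZDefs

/-! Theorem Z, row LR: (0.8) of finding 4602.  An invariant `r`-group `R` normalising an elementary
abelian invariant `p`-group `Ψ` with `C_Ψ(s) = ⟨z⟩`: `[R, s]` centralises `Ψ`. -/

namespace FbZ

open Subgroup
open scoped commutatorElement

universe u

set_option linter.unusedSectionVars false

namespace Lr

variable {M : Type u} [Group M] [Finite M] {s g : M ≃* M} {p q r : ℕ} {z : M} {Ψ : Subgroup M}

/-- the hypotheses on `Ψ` -/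
structure Cx (s g : M ≃* M) (p q r : ℕ) (z : M) (Ψ : Subgroup M) : Prop where
  A : Act s g q
  q2 : q ≠ 2
  pp : p.Prime
  rp : r.Prime
  ne : r ≠ p
  inv : AInv s g Ψ
  ab : ∀ a ∈ Ψ, ∀ b ∈ Ψ, a * b = b * a
  ex : ∀ a ∈ Ψ, a ^ p = 1
  zm : z ∈ Ψ
  sz : s z = z
  fz : ∀ a ∈ Ψ, s a = a → a ∈ zpowers z
  zc : ∀ n : M, s n = n → n * z = z * n

/-- the hypotheses on `R` -/
structure Rx (s g : M ≃* M) (r : ℕ) (Ψ R : Subgroup M) : Prop where
  inv : AInv s g R
  pg : IsPGroup r R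
  nr : ∀ x ∈ R, ∀ a ∈ Ψ, x * a * x⁻¹ ∈ Ψ

theorem Cx.gz (h : Cx s g p q r z Ψ) : g z = z := (h.A.fx z).1 h.sz

/-- an element killed by an `r`-power and by `p` is trivial -/
theorem Cx.kill (h : Cx s g p q r z Ψ) {c : M} {k : ℕ} (hc : c ^ p = 1) (hk : c ^ (r ^ k) = 1) :
    c = 1 := by
  have h1 : orderOf c ∣ p := orderOf_dvd_of_pow_eq_one hc
  have h2 : orderOf c ∣ r ^ k := orderOf_dvd_of_pow_eq_one hk
  have h3 : Nat.Coprime p (r ^ k) :=
    Nat.Coprime.pow_right k ((Nat.coprime_primes h.pp h.rp).2 (fun e => h.ne e.symm))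
  have h4 : orderOf c ∣ 1 := by
    rw [← Nat.Coprime.gcd_eq_one h3]
    exact Nat.dvd_gcd h1 h2
  exact orderOf_eq_one_iff.1 (Nat.dvd_one.1 h4)

theorem Rx.ord {R : Subgroup M} (hR : Rx s g r Ψ R) {x : M} (hx : x ∈ R) :
    ∃ k : ℕ, x ^ (r ^ k) = 1 := by
  obtain ⟨k, hk⟩ := hR.pg ⟨x, hx⟩
  exact ⟨k, by simpa using congrArg Subtype.val hk⟩

/-- last step: if `R` centralises `z` then the inverted elements of `R` centralise `Ψ` -/
theorem last (h : Cx s g p q r z Ψ) {R : Subgroup M} (hR : Rx s g r Ψ R)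
    (hz : ∀ x ∈ R, x * z = z * x) {x : M} (hx : x ∈ R) (sx : s x = x⁻¹) {a : M} (ha : a ∈ Ψ) :
    x * a = a * x := by
  obtain ⟨n, hn, v, hv, sn, sv, rfl⟩ := decomp h.A.odd h.A.ss Ψ h.inv.1 ha
  have h1 : x * n = n * x := by
    obtain ⟨k, hk⟩ := mem_zpowers_iff.1 (h.fz n hn sn)
    rw [← hk]
    exact ((show Commute x z from hz x hx).zpow_right k)
  have hxi : x⁻¹ ∈ R := inv_mem hx
  have m1 : x * v * x⁻¹ ∈ Ψ := hR.nr x hx v hv
  have m2 : x⁻¹ * v * x ∈ Ψ := by simpa using hR.nr x⁻¹ hxi v hv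
  set t : M := x * v * x⁻¹ * (x⁻¹ * v * x)⁻¹ with ht
  have st : s t = t := by
    have e1 : s t = (x⁻¹ * v * x)⁻¹ * (x * v * x⁻¹) := by
      rw [ht, map_mul, map_inv, map_mul, map_mul, map_mul, map_mul, map_inv, sx, sv]
      group
    rw [e1, ht]
    exact h.ab _ (inv_mem m2) _ m1
  obtain ⟨k, hk⟩ := mem_zpowers_iff.1 (h.fz t (mul_mem m1 (inv_mem m2)) st)
  have e2 : x * v * x⁻¹ = z ^ k * (x⁻¹ * v * x) := by
    rw [hk, ht]; group
  have xz : x * z ^ k = z ^ k * x := (show Commute x z from hz x hx).zpow_right k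
  have e3 : (x * x) * v * (x * x)⁻¹ = z ^ k * v := by
    calc (x * x) * v * (x * x)⁻¹ = x * (x * v * x⁻¹) * x⁻¹ := by group
      _ = x * (z ^ k * (x⁻¹ * v * x)) * x⁻¹ := by rw [e2]
      _ = (x * z ^ k) * (x⁻¹ * v * x) * x⁻¹ := by group
      _ = (z ^ k * x) * (x⁻¹ * v * x) * x⁻¹ := by rw [xz]
      _ = z ^ k * v := by group
  have xxz : (x * x) * z ^ k = z ^ k * (x * x) := by
    rw [mul_assoc, xz, ← mul_assoc, xz, mul_assoc]
  have zv : Commute (z ^ k) v := by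
    have := h.ab z h.zm v hv
    exact (show Commute z v from this).zpow_left k
  have e4 : ∀ j : ℕ, (x * x) ^ j * v * ((x * x) ^ j)⁻¹ = (z ^ k) ^ j * v := by
    intro j
    induction j with
    | zero => simp
    | succ j ih =>
      have c1 : (x * x) * (z ^ k) ^ j = (z ^ k) ^ j * (x * x) :=
        (show Commute (x * x) (z ^ k) from xxz).pow_right j
      calc (x * x) ^ (j + 1) * v * ((x * x) ^ (j + 1))⁻¹
          = (x * x) * ((x * x) ^ j * v * ((x * x) ^ j)⁻¹) * (x * x)⁻¹ := by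
            rw [pow_succ', mul_inv_rev]; simp only [mul_assoc]
        _ = (x * x) * ((z ^ k) ^ j * v) * (x * x)⁻¹ := by rw [ih]
        _ = ((x * x) * (z ^ k) ^ j) * v * (x * x)⁻¹ := by group
        _ = ((z ^ k) ^ j * (x * x)) * v * (x * x)⁻¹ := by rw [c1]
        _ = (z ^ k) ^ j * ((x * x) * v * (x * x)⁻¹) := by group
        _ = (z ^ k) ^ j * (z ^ k * v) := by rw [e3]
        _ = (z ^ k) ^ (j + 1) * v := by rw [pow_succ]; group
  obtain ⟨j, hj⟩ := hR.ord (mul_mem hx hx)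
  have e5 := e4 (r ^ j)
  rw [hj] at e5
  have e6 : (z ^ k) ^ (r ^ j) = 1 := by
    have : v = (z ^ k) ^ (r ^ j) * v := by simpa using e5
    exact mul_eq_right.1 this.symm
  have e7 : (z ^ k) ^ p = 1 := h.ex _ (Subgroup.zpow_mem _ h.zm k)
  have e8 : z ^ k = 1 := h.kill e7 e6
  rw [e8, one_mul] at e3
  have e9 : (x * x) * v = v * (x * x) := by
    calc (x * x) * v = (x * x) * v * (x * x)⁻¹ * (x * x) := by group
      _ = v * (x * x) := by rw [e3]
  have e10 : x * v = v * x := sq_comm h.A.odd e9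
  rw [← mul_assoc, h1, mul_assoc, e10, mul_assoc]

/-! ### the action on `E` -/

/-- `E = ⟨z^R⟩` -/
def Ez (z : M) (R : Subgroup M) : Subgroup M := closure {e | ∃ x ∈ R, e = x * z * x⁻¹}

theorem br_mem {R : Subgroup M} {x : M} (hx : x ∈ R) : x * z * x⁻¹ ∈ Ez z R :=
  subset_closure ⟨x, hx, rfl⟩

theorem Ez_le (h : Cx s g p q r z Ψ) {R : Subgroup M} (hR : Rx s g r Ψ R) : Ez z R ≤ Ψ := by
  rw [Ez, closure_le]
  rintro e ⟨x, hx, rfl⟩
  exact hR.nr x hx z h.zm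

theorem Ez_conj {R : Subgroup M} {x e : M} (hx : x ∈ R) (he : e ∈ Ez z R) :
    x * e * x⁻¹ ∈ Ez z R := by
  have : Ez z R ≤ (Ez z R).comap (MulAut.conj x).toMonoidHom := by
    conv_lhs => rw [Ez]
    rw [closure_le]
    rintro e ⟨y, hy, rfl⟩
    show x * (y * z * y⁻¹) * x⁻¹ ∈ Ez z R
    have := br_mem (z := z) (mul_mem hx hy)
    convert this using 1
    group
  exact this he

/-- if `d` commutes with the generators then it commutes with `E` -/
theorem Ez_comm {R : Subgroup M} {d : M} (hd : ∀ x ∈ R, d * (x * z * x⁻¹) = (x * z * x⁻¹) * d)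
    {e : M} (he : e ∈ Ez z R) : d * e = e * d := by
  have : Ez z R ≤ centralizer {d} := by
    rw [Ez, closure_le]
    rintro e ⟨y, hy, rfl⟩
    rw [SetLike.mem_coe, mem_centralizer_singleton_iff]
    exact (hd y hy).symm
  exact ((mem_centralizer_singleton_iff).1 (this he)).symm

/-- `R` acts on `E` as an abelian group -/
theorem Ez_sw {R : Subgroup M}
    (hd : ∀ x ∈ R, ∀ y ∈ R, ∀ w ∈ R, ⁅x, y⁆ * (w * z * w⁻¹) = (w * z * w⁻¹) * ⁅x, y⁆)
    {x y e : M} (hx : x ∈ R) (hy : y ∈ R) (he : e ∈ Ez z R) :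
    x * (y * e * y⁻¹) * x⁻¹ = y * (x * e * x⁻¹) * y⁻¹ := by
  have h1 : y * x * e * (y * x)⁻¹ ∈ Ez z R := Ez_conj (mul_mem hy hx) he
  have h2 := Ez_comm (fun w hw => hd x hx y hy w hw) h1
  calc x * (y * e * y⁻¹) * x⁻¹ = ⁅x, y⁆ * (y * x * e * (y * x)⁻¹) * ⁅x, y⁆⁻¹ := by
        rw [commutatorElement_def]; group
    _ = (y * x * e * (y * x)⁻¹) * ⁅x, y⁆ * ⁅x, y⁆⁻¹ := by rw [h2]
    _ = y * (x * e * x⁻¹) * y⁻¹ := by group

/-- the quadratic relation spreads from `z` to `E` -/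
theorem Ez_quad (h : Cx s g p q r z Ψ) {R : Subgroup M} (hR : Rx s g r Ψ R)
    (hd : ∀ x ∈ R, ∀ y ∈ R, ∀ w ∈ R, ⁅x, y⁆ * (w * z * w⁻¹) = (w * z * w⁻¹) * ⁅x, y⁆)
    {x : M} (hx : x ∈ R) {k : ℤ} (h0 : (x * z * x⁻¹) * (x⁻¹ * z * x) = z ^ k) {e : M}
    (he : e ∈ Ez z R) : (x * e * x⁻¹) * (x⁻¹ * e * x) = e ^ k := by
  have hxi : x⁻¹ ∈ R := inv_mem hx
  have hE := Ez_le h hR
  have cx : ∀ {e : M}, e ∈ Ez z R → x * e * x⁻¹ ∈ Ez z R := fun he => Ez_conj hx he
  have cxi : ∀ {e : M}, e ∈ Ez z R → x⁻¹ * e * x ∈ Ez z R := fun he => by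
    simpa using Ez_conj hxi he
  induction he using closure_induction with
  | mem e he =>
    obtain ⟨y, hy, rfl⟩ := he
    have hz : z ∈ Ez z R := by simpa using br_mem (z := z) (one_mem R)
    have e1 : x * (y * z * y⁻¹) * x⁻¹ = y * (x * z * x⁻¹) * y⁻¹ := Ez_sw hd hx hy hz
    have e2 : x⁻¹ * (y * z * y⁻¹) * x = y * (x⁻¹ * z * x) * y⁻¹ := by
      simpa using Ez_sw hd hxi hy hz
    rw [e1, e2]
    calc y * (x * z * x⁻¹) * y⁻¹ * (y * (x⁻¹ * z * x) * y⁻¹)
        = y * ((x * z * x⁻¹) * (x⁻¹ * z * x)) * y⁻¹ := by group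
      _ = y * z ^ k * y⁻¹ := by rw [h0]
      _ = (y * z * y⁻¹) ^ k := by
        rw [← MulAut.conj_apply, ← MulAut.conj_apply, map_zpow]
  | one => simp
  | mul a b ha hb iha ihb =>
    have c1 : (x * b * x⁻¹) * (x⁻¹ * a * x) = (x⁻¹ * a * x) * (x * b * x⁻¹) :=
      h.ab _ (hE (cx hb)) _ (hE (cxi ha))
    calc x * (a * b) * x⁻¹ * (x⁻¹ * (a * b) * x)
        = (x * a * x⁻¹) * ((x * b * x⁻¹) * (x⁻¹ * a * x)) * (x⁻¹ * b * x) := by group
      _ = ((x * a * x⁻¹) * (x⁻¹ * a * x)) * ((x * b * x⁻¹) * (x⁻¹ * b * x)) := by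
        rw [c1]; group
      _ = a ^ k * b ^ k := by rw [iha, ihb]
      _ = (a * b) ^ k := by
        rw [(show Commute a b from h.ab _ (hE ha) _ (hE hb)).mul_zpow]
  | inv a ha iha =>
    have c1 : (x * a * x⁻¹) * (x⁻¹ * a * x) = (x⁻¹ * a * x) * (x * a * x⁻¹) :=
      h.ab _ (hE (cx ha)) _ (hE (cxi ha))
    calc x * a⁻¹ * x⁻¹ * (x⁻¹ * a⁻¹ * x)
        = ((x⁻¹ * a * x) * (x * a * x⁻¹))⁻¹ := by group
      _ = (a ^ k)⁻¹ := by rw [← c1, iha]
      _ = a⁻¹ ^ k := by rw [inv_zpow]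

/-- `[x] = x z x⁻¹` -/
theorem s_br (h : Cx s g p q r z Ψ) (x : M) : s (x * z * x⁻¹) = s x * z * (s x)⁻¹ := by
  rw [map_mul, map_mul, map_inv, h.sz]

theorem g_br (h : Cx s g p q r z Ψ) (x : M) : g (x * z * x⁻¹) = g x * z * (g x)⁻¹ := by
  rw [map_mul, map_mul, map_inv, h.gz]

/-- an element `x` commuting with `[x] z⁻¹` centralises `z` -/
theorem fixz (h : Cx s g p q r z Ψ) {R : Subgroup M} (hR : Rx s g r Ψ R) {x : M} (hx : x ∈ R)
    (hc : x * (x * z * x⁻¹ * z⁻¹) = (x * z * x⁻¹ * z⁻¹) * x) : x * z * x⁻¹ = z := by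
  set c : M := x * z * x⁻¹ * z⁻¹ with hcd
  have hcΨ : c ∈ Ψ := mul_mem (hR.nr x hx z h.zm) (inv_mem h.zm)
  have e1 : x * z * x⁻¹ = c * z := by rw [hcd]; group
  have e2 : ∀ j : ℕ, x ^ j * z * (x ^ j)⁻¹ = c ^ j * z := by
    intro j
    induction j with
    | zero => simp
    | succ j ih =>
      have c1 : x * c ^ j = c ^ j * x := (show Commute x c from hc).pow_right j
      calc x ^ (j + 1) * z * (x ^ (j + 1))⁻¹ = x * (x ^ j * z * (x ^ j)⁻¹) * x⁻¹ := by
            rw [pow_succ', mul_inv_rev]; simp only [mul_assoc]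
        _ = (x * c ^ j) * z * x⁻¹ := by rw [ih]; simp only [mul_assoc]
        _ = c ^ j * (x * z * x⁻¹) := by rw [c1]; simp only [mul_assoc]
        _ = c ^ (j + 1) * z := by rw [e1, pow_succ]; simp only [mul_assoc]
  obtain ⟨k, hk⟩ := hR.ord hx
  have e3 := e2 (r ^ k)
  rw [hk] at e3
  have e4 : c ^ (r ^ k) = 1 := by
    have : z = c ^ (r ^ k) * z := by simpa using e3
    exact mul_eq_right.1 this.symm
  have e5 : c = 1 := h.kill (h.ex c hcΨ) e4
  rw [e1, e5, one_mul]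

/-- `[x] = [g x]` or `[g x] = [x⁻¹]` for inverted `x` -/
theorem two (h : Cx s g p q r z Ψ) {R : Subgroup M} (hR : Rx s g r Ψ R)
    (hd : ∀ x ∈ R, ∀ y ∈ R, ∀ w ∈ R, ⁅x, y⁆ * (w * z * w⁻¹) = (w * z * w⁻¹) * ⁅x, y⁆)
    {x : M} (hx : x ∈ R) (sx : s x = x⁻¹) :
    g x * z * (g x)⁻¹ = x * z * x⁻¹ ∨ g x * z * (g x)⁻¹ = x⁻¹ * z * x := by
  have hE := Ez_le h hR
  set y : M := g x with hy
  clear_value y
  have hyR : y ∈ R := by rw [hy]; exact hR.inv.2 x hx
  have sy : s y = y⁻¹ := by rw [hy, h.A.sg, sx, map_inv]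
  have hxi : x⁻¹ ∈ R := inv_mem hx
  have hyi : y⁻¹ ∈ R := inv_mem hyR
  have hz : z ∈ Ez z R := by simpa using br_mem (z := z) (one_mem R)
  have cj : ∀ {w e : M}, w ∈ R → e ∈ Ez z R → w * e * w⁻¹ ∈ Ez z R :=
    fun hw he => Ez_conj hw he
  have cji : ∀ {w e : M}, w ∈ R → e ∈ Ez z R → w⁻¹ * e * w ∈ Ez z R := fun hw he => by
    simpa using Ez_conj (inv_mem hw) he
  have com : ∀ {a b : M}, a ∈ Ez z R → b ∈ Ez z R → a * b = b * a :=
    fun ha hb => h.ab _ (hE ha) _ (hE hb)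
  -- the quadratic relations
  have s1 : s ((x * z * x⁻¹) * (x⁻¹ * z * x)) = (x * z * x⁻¹) * (x⁻¹ * z * x) := by
    have e1 : s ((x * z * x⁻¹) * (x⁻¹ * z * x)) = (x⁻¹ * z * x) * (x * z * x⁻¹) := by
      rw [map_mul, s_br h, map_mul, map_mul, map_inv, h.sz, sx]; simp only [inv_inv]
    rw [e1]
    exact com (cji hx hz) (cj hx hz)
  obtain ⟨k, hk⟩ := mem_zpowers_iff.1 (h.fz _ (hE (mul_mem (cj hx hz) (cji hx hz))) s1)
  have qx0 : (x * z * x⁻¹) * (x⁻¹ * z * x) = z ^ k := hk.symm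
  have qy0 : (y * z * y⁻¹) * (y⁻¹ * z * y) = z ^ k := by
    have e1 := congrArg g qx0
    rw [map_zpow, h.gz, map_mul, g_br h, map_mul, map_mul, map_inv, h.gz, ← hy] at e1
    exact e1
  have qx : ∀ {e : M}, e ∈ Ez z R → (x * e * x⁻¹) * (x⁻¹ * e * x) = e ^ k :=
    fun he => Ez_quad h hR hd hx qx0 he
  have qy : ∀ {e : M}, e ∈ Ez z R → (y * e * y⁻¹) * (y⁻¹ * e * y) = e ^ k :=
    fun he => Ez_quad h hR hd hyR qy0 he
  set X : M := x * z * x⁻¹ with hX
  set Y : M := y * z * y⁻¹ with hY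
  have XE : X ∈ Ez z R := cj hx hz
  have YE : Y ∈ Ez z R := cj hyR hz
  clear_value X Y
  set u : M := X * Y⁻¹ with hu
  have uE : u ∈ Ez z R := mul_mem XE (inv_mem YE)
  clear_value u
  -- `x y` centralises `u`
  have wu : (x * y) * u * (x * y)⁻¹ = u := by
    have hzw : (x * y) * z * (x * y)⁻¹ ∈ Ez z R := cj (mul_mem hx hyR) hz
    have e1 := (qx hzw).trans (qy hzw).symm
    have e2 : x⁻¹ * ((x * y) * z * (x * y)⁻¹) * x = Y := by rw [hY]; group
    have e3 : (x * y) * z * (x * y)⁻¹ = x * Y * x⁻¹ := by rw [hY]; group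
    have e4 : (x * y) * z * (x * y)⁻¹ = y * X * y⁻¹ := by
      rw [e3, hY, hX]; exact Ez_sw hd hx hyR hz
    have e5 : y⁻¹ * ((x * y) * z * (x * y)⁻¹) * y = X := by rw [e4]; group
    rw [e2, e5] at e1
    have e6 : x * ((x * y) * z * (x * y)⁻¹) * x⁻¹ = (x * y) * X * (x * y)⁻¹ := by
      rw [e4]; group
    have e7 : y * ((x * y) * z * (x * y)⁻¹) * y⁻¹ = (x * y) * Y * (x * y)⁻¹ := by
      rw [e3, ← Ez_sw hd hx hyR YE]; group
    rw [e6, e7] at e1
    have a1 : (x * y) * X * (x * y)⁻¹ ∈ Ez z R := cj (mul_mem hx hyR) XE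
    have a2 : (x * y) * Y * (x * y)⁻¹ ∈ Ez z R := cj (mul_mem hx hyR) YE
    -- `wX * Y = wY * X`
    have e8 : (x * y) * u * (x * y)⁻¹
        = ((x * y) * X * (x * y)⁻¹) * ((x * y) * Y * (x * y)⁻¹)⁻¹ := by rw [hu]; group
    rw [e8]
    have e9 : (x * y) * X * (x * y)⁻¹ = ((x * y) * Y * (x * y)⁻¹) * X * Y⁻¹ :=
      eq_mul_inv_of_mul_eq e1
    rw [e9, hu]
    have e10 := com (mul_mem XE (inv_mem YE)) (inv_mem a2)
    calc ((x * y) * Y * (x * y)⁻¹) * X * Y⁻¹ * ((x * y) * Y * (x * y)⁻¹)⁻¹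
        = ((x * y) * Y * (x * y)⁻¹) * ((X * Y⁻¹) * ((x * y) * Y * (x * y)⁻¹)⁻¹) := by
          simp only [mul_assoc]
      _ = ((x * y) * Y * (x * y)⁻¹) * (((x * y) * Y * (x * y)⁻¹)⁻¹ * (X * Y⁻¹)) := by rw [e10]
      _ = X * Y⁻¹ := by rw [mul_inv_cancel_left]
  have yu : y * u * y⁻¹ = x⁻¹ * u * x := by
    calc y * u * y⁻¹ = x⁻¹ * ((x * y) * u * (x * y)⁻¹) * x := by group
      _ = x⁻¹ * u * x := by rw [wu]
  have su : s u = u⁻¹ := by
    have e1 : s u = (x⁻¹ * z * x) * (y⁻¹ * z * y)⁻¹ := by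
      rw [hu, map_mul, map_inv, hX, hY, s_br h, s_br h, sx, sy, inv_inv, inv_inv]
    have e2 : x⁻¹ * z * x = X⁻¹ * z ^ k := by rw [← qx0]; group
    have e3 : y⁻¹ * z * y = Y⁻¹ * z ^ k := by rw [← qy0]; group
    rw [e1, e2, e3, hu]
    have e4 := com (inv_mem XE) YE
    calc X⁻¹ * z ^ k * (Y⁻¹ * z ^ k)⁻¹ = X⁻¹ * Y := by group
      _ = Y * X⁻¹ := e4
      _ = (X * Y⁻¹)⁻¹ := by group
  set t : M := x * u * x⁻¹ * (x⁻¹ * u * x)⁻¹ with ht
  have tE : t ∈ Ez z R := mul_mem (cj hx uE) (inv_mem (cji hx uE))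
  clear_value t
  have st : s t = t := by
    have e1 : s t = (x⁻¹ * u * x)⁻¹ * (x * u * x⁻¹) := by
      rw [ht, map_mul, map_inv, map_mul, map_mul, map_mul, map_mul, map_inv, sx, su]
      group
    rw [e1, ht]
    exact com (inv_mem (cji hx uE)) (cj hx uE)
  by_cases t1 : t = 1
  · -- `x` and `y` centralise `u`
    left
    have xu : x * u = u * x := by
      have e1 : x * u * x⁻¹ = x⁻¹ * u * x := mul_inv_eq_one.1 (ht ▸ t1)
      apply sq_comm h.A.odd
      calc (x * x) * u = x * (x * u * x⁻¹) * x := by group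
        _ = x * (x⁻¹ * u * x) * x := by rw [e1]
        _ = u * (x * x) := by group
    have yu' : y * u = u * y := by
      have e1 : y * u * y⁻¹ = u := by
        rw [yu, mul_assoc, ← xu, inv_mul_cancel_left]
      calc y * u = y * u * y⁻¹ * y := by group
        _ = u * y := by rw [e1]
    by_contra hne
    have u1 : u ≠ 1 := by
      intro e
      apply hne
      rw [hu] at e
      exact (mul_inv_eq_one.1 e).symm
    -- the exponent `k` is `2` on elements of order `p`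
    have q2 : u ^ (k - 2) = 1 := by
      have e1 := qx uE
      have e2 : x * u * x⁻¹ = u := by rw [xu]; group
      have e3 : x⁻¹ * u * x = u := by rw [mul_assoc, ← xu, inv_mul_cancel_left]
      rw [e2, e3] at e1
      rw [zpow_sub, ← e1]
      group
    have hp : Fact p.Prime := ⟨h.pp⟩
    have ou : orderOf u = p := orderOf_eq_prime (h.ex u (hE uE)) u1
    have dk : (p : ℤ) ∣ k - 2 := by
      rw [← ou]; exact orderOf_dvd_iff_zpow_eq_one.2 q2
    have ke : ∀ {e : M}, e ∈ Ez z R → e ^ k = e * e := by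
      intro e he
      obtain ⟨j, hj⟩ := dk
      have : k = (p : ℤ) * j + 2 := by omega
      rw [this, zpow_add, zpow_mul, zpow_natCast, h.ex e (hE he), one_zpow, one_mul]
      exact zpow_two e
    have main : ∀ v ∈ R, (∀ {e : M}, e ∈ Ez z R → (v * e * v⁻¹) * (v⁻¹ * e * v) = e ^ k) →
        v * z * v⁻¹ = z := by
      intro v hv qv
      apply fixz h hR hv
      set V : M := v * z * v⁻¹ with hV
      have VE : V ∈ Ez z R := cj hv hz
      clear_value V
      have e1 := (qv VE).trans (ke VE)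
      have e2 : v⁻¹ * V * v = z := by rw [hV]; group
      rw [e2] at e1
      -- `v V v⁻¹ z = V V`
      have e3 : v * V * v⁻¹ = V * V * z⁻¹ := by rw [← e1]; group
      have e4 : v * (V * z⁻¹) * v⁻¹ = V * z⁻¹ := by
        calc v * (V * z⁻¹) * v⁻¹ = (v * V * v⁻¹) * V⁻¹ := by rw [hV]; group
          _ = V * (V * z⁻¹ * V⁻¹) := by rw [e3]; group
          _ = V * z⁻¹ := by
            rw [com VE (inv_mem hz), mul_inv_cancel_right]; exact com VE (inv_mem hz)
      calc v * (V * z⁻¹) = v * (V * z⁻¹) * v⁻¹ * v := by group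
        _ = V * z⁻¹ * v := by rw [e4]
    have X1 : X = z := hX.trans (main x hx qx)
    have Y1 : Y = z := hY.trans (main y hyR qy)
    exact hne (by rw [X1, Y1])
  · -- `x y` centralises `z`
    right
    obtain ⟨j, hj⟩ := mem_zpowers_iff.1 (h.fz t (hE tE) st)
    have wt : (x * y) * t * (x * y)⁻¹ = t := by
      have hw : x * y ∈ R := mul_mem hx hyR
      have e1 : (x * y) * (x * u * x⁻¹) * (x * y)⁻¹ = x * u * x⁻¹ := by
        rw [Ez_sw hd hw hx uE, wu]
      have e2 : (x * y) * (x⁻¹ * u * x) * (x * y)⁻¹ = x⁻¹ * u * x := by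
        have := Ez_sw hd hw hxi uE
        rw [wu] at this
        simpa using this
      calc (x * y) * t * (x * y)⁻¹
          = ((x * y) * (x * u * x⁻¹) * (x * y)⁻¹)
            * ((x * y) * (x⁻¹ * u * x) * (x * y)⁻¹)⁻¹ := by rw [ht]; group
        _ = t := by rw [e1, e2, ← ht]
    have hp : Fact p.Prime := ⟨h.pp⟩
    have ot : orderOf t = p := orderOf_eq_prime (h.ex t (hE tE)) t1
    have oz : orderOf z = p := by
      apply orderOf_eq_prime (h.ex z h.zm)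
      intro e
      rw [e, one_zpow] at hj
      exact t1 hj.symm
    have zt : z ∈ zpowers t := by
      have hle : zpowers t ≤ zpowers z := by rw [zpowers_le, ← hj]; exact zpow_mem_zpowers z j
      have hc : Nat.card (zpowers z) ≤ Nat.card (zpowers t) := by
        rw [Nat.card_zpowers, Nat.card_zpowers, oz, ot]
      have := Subgroup.eq_of_le_of_card_ge hle hc
      rw [this]
      exact mem_zpowers z
    obtain ⟨i, hi⟩ := mem_zpowers_iff.1 zt
    have wz : (x * y) * z * (x * y)⁻¹ = z := by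
      rw [← hi, ← MulAut.conj_apply, map_zpow, MulAut.conj_apply, wt]
    calc Y = x⁻¹ * ((x * y) * z * (x * y)⁻¹) * x := by rw [hY]; group
      _ = x⁻¹ * z * x := by rw [wz]

/-- `[x] = [g x]` for inverted `x` -/
theorem brg (h : Cx s g p q r z Ψ) {R : Subgroup M} (hR : Rx s g r Ψ R)
    (hd : ∀ x ∈ R, ∀ y ∈ R, ∀ w ∈ R, ⁅x, y⁆ * (w * z * w⁻¹) = (w * z * w⁻¹) * ⁅x, y⁆)
    {x : M} (hx : x ∈ R) (sx : s x = x⁻¹) : g x * z * (g x)⁻¹ = x * z * x⁻¹ := by
  have g2 : ∀ x ∈ R, s x = x⁻¹ → g (g x) * z * (g (g x))⁻¹ = x * z * x⁻¹ := by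
    intro x hx sx
    have sgx : s (g x) = (g x)⁻¹ := by rw [h.A.sg, sx, map_inv]
    rcases two h hR hd hx sx with e | e
    · have e1 := congrArg g e
      rw [g_br h, g_br h] at e1
      rw [e1, e]
    · have e1 := congrArg g e
      rw [g_br h, map_mul, map_mul, map_inv, h.gz] at e1
      have e2 := congrArg s e
      rw [s_br h, sgx, map_mul, map_mul, map_inv, h.sz, sx] at e2
      rw [e1]
      simpa using e2
  have it : ∀ k : ℕ, ∀ x ∈ R, s x = x⁻¹ →
      (⇑g)^[2 * k] x * z * ((⇑g)^[2 * k] x)⁻¹ = x * z * x⁻¹ := by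
    intro k
    induction k with
    | zero => intro x _ _; rfl
    | succ k ih =>
      intro x hx sx
      have e1 : (⇑g)^[2 * (k + 1)] x = (⇑g)^[2 * k] (g (g x)) := by
        rw [show 2 * (k + 1) = 2 * k + 1 + 1 by ring, Function.iterate_succ_apply,
          Function.iterate_succ_apply]
      rw [e1, ih (g (g x)) (hR.inv.2 _ (hR.inv.2 x hx))
        (by rw [h.A.sg, h.A.sg, sx, map_inv, map_inv]), g2 x hx sx]
  have hq : Odd q := h.A.qp.odd_of_ne_two h.q2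
  obtain ⟨m, hm⟩ := hq
  have e1 := it (m + 1) x hx sx
  have e2 : (⇑g)^[2 * (m + 1)] x = g x := by
    rw [show 2 * (m + 1) = q + 1 by omega, Function.iterate_succ_apply, h.A.gq]
  rw [e2] at e1
  exact e1

/-- the case that `R` is generated by inverted elements and acts on `E` as an abelian group -/
theorem core (h : Cx s g p q r z Ψ) {R : Subgroup M} (hR : Rx s g r Ψ R)
    (hd : ∀ x ∈ R, ∀ y ∈ R, ∀ w ∈ R, ⁅x, y⁆ * (w * z * w⁻¹) = (w * z * w⁻¹) * ⁅x, y⁆)
    (hgen : R ≤ closure {x : M | x ∈ R ∧ s x = x⁻¹}) {x : M} (hx : x ∈ R) : x * z = z * x := by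
  have hz : z ∈ Ez z R := by simpa using br_mem (z := z) (one_mem R)
  -- `[ρ] = [g ρ]` for all `ρ`
  have all : ∀ x ∈ R, g x * z * (g x)⁻¹ = x * z * x⁻¹ := by
    intro x hx
    have : x ∈ R ∧ g x * z * (g x)⁻¹ = x * z * x⁻¹ := by
      have hx' := hgen hx
      clear hx
      induction hx' using closure_induction with
      | mem x hx => exact ⟨hx.1, brg h hR hd hx.1 hx.2⟩
      | one => exact ⟨one_mem R, by simp⟩
      | mul x y _ _ ihx ihy =>
        refine ⟨mul_mem ihx.1 ihy.1, ?_⟩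
        have hgx := hR.inv.2 x ihx.1
        have hgy := hR.inv.2 y ihy.1
        calc g (x * y) * z * (g (x * y))⁻¹ = g x * (g y * z * (g y)⁻¹) * (g x)⁻¹ := by
              rw [map_mul]; group
          _ = g x * (y * z * y⁻¹) * (g x)⁻¹ := by rw [ihy.2]
          _ = y * (g x * z * (g x)⁻¹) * y⁻¹ := Ez_sw hd hgx ihy.1 hz
          _ = y * (x * z * x⁻¹) * y⁻¹ := by rw [ihx.2]
          _ = x * (y * z * y⁻¹) * x⁻¹ := (Ez_sw hd ihx.1 ihy.1 hz).symm
          _ = x * y * z * (x * y)⁻¹ := by group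
      | inv x _ ihx =>
        refine ⟨inv_mem ihx.1, ?_⟩
        have hgx := hR.inv.2 x ihx.1
        have e1 : (g x)⁻¹ * (x * z * x⁻¹) * g x = z := by rw [← ihx.2]; group
        have e2 := Ez_sw hd (inv_mem ihx.1) (inv_mem hgx)
          (br_mem (z := z) ihx.1)
        simp only [inv_inv] at e2
        rw [e1] at e2
        calc g x⁻¹ * z * (g x⁻¹)⁻¹ = (g x)⁻¹ * (x⁻¹ * (x * z * x⁻¹) * x) * g x := by
              rw [map_inv]; group
          _ = x⁻¹ * z * x := e2.symm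
          _ = x⁻¹ * z * x⁻¹⁻¹ := by rw [inv_inv]
    exact this.2
  -- the stabiliser of `z`
  have hC : ∀ y ∈ R ⊓ centralizer {z}, g y ∈ R ⊓ centralizer {z} := by
    intro y hy
    refine ⟨hR.inv.2 y hy.1, ?_⟩
    have h1 : y * z = z * y := mem_centralizer_singleton_iff.1 hy.2
    have h2 : g y * z = z * g y := by
      have := congrArg g h1
      rwa [map_mul, map_mul, h.gz] at this
    exact mem_centralizer_singleton_iff.2 h2
  have h1 : x⁻¹ * g x ∈ R ⊓ centralizer {z} := by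
    refine mem_inf.2 ⟨mul_mem (inv_mem hx) (hR.inv.2 x hx), ?_⟩
    have e1 := all x hx
    apply mem_centralizer_singleton_iff.2
    calc x⁻¹ * g x * z = x⁻¹ * (g x * z * (g x)⁻¹) * g x := by group
      _ = x⁻¹ * (x * z * x⁻¹) * g x := by rw [e1]
      _ = z * (x⁻¹ * g x) := by group
  obtain ⟨c, hc, hgc⟩ := coset_fix h.A.qp h.A.qn h.A.gq _ hC h1
  have h2 := h.zc _ ((h.A.fx _).2 hgc)
  have h3 := mem_centralizer_singleton_iff.1 hc.2
  calc x * z = x * (z * c) * c⁻¹ := by group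
    _ = x * (c * z) * c⁻¹ := by rw [h3]
    _ = (x * c * z) * c⁻¹ := by group
    _ = (z * (x * c)) * c⁻¹ := by rw [h2]
    _ = z * x := by group

/-- the commutator subgroup is invariant -/
theorem comm_inv {f : M ≃* M} {R : Subgroup M} (hf : ∀ x ∈ R, f x ∈ R) :
    ∀ x ∈ ⁅R, R⁆, f x ∈ ⁅R, R⁆ := by
  have : ⁅R, R⁆ ≤ ⁅R, R⁆.comap (f : M →* M) := by
    rw [commutator_le]
    intro a ha b hb
    show f ⁅a, b⁆ ∈ ⁅R, R⁆
    rw [map_commutatorElement]
    exact commutator_mem_commutator (hf a ha) (hf b hb)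
  exact fun x hx => this hx

theorem comm_lt {R : Subgroup M} (hr : r.Prime) (hR : IsPGroup r R) (h1 : R ≠ ⊥) :
    ⁅R, R⁆ < R := by
  have : Fact r.Prime := ⟨hr⟩
  have : Nontrivial R := (nontrivial_iff_ne_bot R).2 h1
  have hn : Group.IsNilpotent R := hR.isNilpotent
  have hlt : commutator R < ⊤ := Group.IsSolvable.commutator_lt_top_of_nontrivial R
  have e : (commutator R).map R.subtype = ⁅R, R⁆ := map_subtype_commutator R
  have e2 : (⊤ : Subgroup R).map R.subtype = R := by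
    rw [← MonoidHom.range_eq_map, range_subtype]
  calc ⁅R, R⁆ = (commutator R).map R.subtype := e.symm
    _ < (⊤ : Subgroup R).map R.subtype := (map_lt_map_iff_of_injective R.subtype_injective).2 hlt
    _ = R := e2

theorem main (h : Cx s g p q r z Ψ) : ∀ n : ℕ, ∀ R : Subgroup M, Nat.card R = n →
    Rx s g r Ψ R → ∀ x ∈ R, s x = x⁻¹ → ∀ a ∈ Ψ, x * a = a * x := by
  intro n
  induction n using Nat.strong_induction_on with
  | _ n ih =>
  intro R hcard hR x hx sx a ha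
  have lt_card : ∀ T : Subgroup M, T < R → Nat.card T < n := by
    intro T hT
    rw [← hcard]
    exact Set.ncard_lt_ncard hT (Set.toFinite _)
  have sub_Rx : ∀ T : Subgroup M, T ≤ R → AInv s g T → Rx s g r Ψ T := fun T hT hi =>
    ⟨hi, hR.pg.to_le hT, fun x hx => hR.nr x (hT hx)⟩
  set R1 : Subgroup M := closure {x : M | x ∈ R ∧ s x = x⁻¹} with hR1
  have R1le : R1 ≤ R := by
    rw [hR1, closure_le]; exact fun x hx => hx.1
  have R1inv : AInv s g R1 := by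
    apply AInv.closure
    · intro x hx
      refine ⟨hR.inv.1 x hx.1, ?_⟩
      rw [hx.2, map_inv, hx.2]
    · intro x hx
      refine ⟨hR.inv.2 x hx.1, ?_⟩
      rw [h.A.sg, hx.2, map_inv]
  by_cases hne : R1 = R
  · by_cases hbot : R = ⊥
    · rw [hbot, mem_bot] at hx
      rw [hx, one_mul, mul_one]
    set D : Subgroup M := ⁅R, R⁆ with hD
    have DR : D < R := comm_lt h.rp hR.pg hbot
    have Dinv : AInv s g D := ⟨comm_inv hR.inv.1, comm_inv hR.inv.2⟩
    have ihD := ih _ (lt_card D DR) D rfl (sub_Rx D DR.le Dinv)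
    have Dn : ∀ w ∈ R, ∀ d ∈ D, w * d * w⁻¹ ∈ D := by
      intro w hw d hd
      have e : w * d * w⁻¹ = ⁅w, d⁆ * d := by rw [commutatorElement_def]; group
      rw [e]
      exact mul_mem (commutator_mem_commutator hw (DR.le hd)) hd
    -- the kernel
    let K : Subgroup M := R ⊓ centralizer (Ψ : Set M)
    have Kn : ∀ w ∈ R, ∀ k ∈ K, w * k * w⁻¹ ∈ K := by
      intro w hw k hk
      refine mem_inf.2 ⟨mul_mem (mul_mem hw (mem_inf.1 hk).1) (inv_mem hw), ?_⟩
      rw [mem_centralizer_iff]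
      intro b hb
      have h1 : w⁻¹ * b * w ∈ Ψ := by simpa using hR.nr w⁻¹ (inv_mem hw) b hb
      have h2 := mem_centralizer_iff.1 (mem_inf.1 hk).2 _ h1
      calc b * (w * k * w⁻¹) = w * ((w⁻¹ * b * w) * k) * w⁻¹ := by group
        _ = w * (k * (w⁻¹ * b * w)) * w⁻¹ := by rw [h2]
        _ = w * k * w⁻¹ * b := by group
    have KI : ∀ y ∈ D, s y = y⁻¹ → y ∈ K := by
      intro y hy sy
      refine mem_inf.2 ⟨DR.le hy, ?_⟩
      rw [mem_centralizer_iff]
      intro b hb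
      exact (ihD y hy sy b hb).symm
    have Ks : ∀ d ∈ D, s d * d⁻¹ ∈ K := by
      intro d hd
      obtain ⟨n, hn, y, hy, sn, sy, rfl⟩ := decomp h.A.odd h.A.ss D Dinv.1 hd
      have h1 : y⁻¹ * y⁻¹ ∈ K := mul_mem (inv_mem (KI y hy sy)) (inv_mem (KI y hy sy))
      have h2 := Kn n (DR.le hn) _ h1
      have e : s (n * y) * (n * y)⁻¹ = n * (y⁻¹ * y⁻¹) * n⁻¹ := by
        rw [map_mul, sn, sy]; group
      rw [e]; exact h2
    -- commuting modulo the kernel
    have cm : ∀ d ∈ D, ∀ w ∈ R, d * w * d⁻¹ * w⁻¹ ∈ K := by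
      intro d hd
      let Cd : Subgroup M :=
        { carrier := {w | w ∈ R ∧ d * w * d⁻¹ * w⁻¹ ∈ K}
          one_mem' := ⟨one_mem R, by simp⟩
          mul_mem' := by
            rintro v w ⟨hv, hv2⟩ ⟨hw, hw2⟩
            refine ⟨mul_mem hv hw, ?_⟩
            have e : d * (v * w) * d⁻¹ * (v * w)⁻¹
                = (d * v * d⁻¹ * v⁻¹) * (v * (d * w * d⁻¹ * w⁻¹) * v⁻¹) := by group
            rw [e]
            exact mul_mem hv2 (Kn v hv _ hw2)
          inv_mem' := by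
            rintro v ⟨hv, hv2⟩
            refine ⟨inv_mem hv, ?_⟩
            have e : d * v⁻¹ * d⁻¹ * v⁻¹⁻¹ = v⁻¹ * (d * v * d⁻¹ * v⁻¹)⁻¹ * v⁻¹⁻¹ := by group
            rw [e]
            exact Kn v⁻¹ (inv_mem hv) _ (inv_mem hv2) }
      have hle : R ≤ Cd := by
        conv_lhs => rw [← hne]
        rw [hR1, closure_le]
        rintro w ⟨hw, sw⟩
        show w ∈ Cd
        have h1 : w * w ∈ Cd := by
          refine ⟨mul_mem hw hw, ?_⟩
          have k1 := Ks _ (Dn w hw d hd)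
          have k2 := Ks d hd
          have e1 : s (w * d * w⁻¹) * (w * d * w⁻¹)⁻¹ = w⁻¹ * s d * w * (w * d⁻¹ * w⁻¹) := by
            rw [map_mul, map_mul, map_inv, sw]; group
          rw [e1] at k1
          have e2 : d * (w * w) * d⁻¹ * (w * w)⁻¹
              = (s d * d⁻¹)⁻¹ * (w * (w⁻¹ * s d * w * (w * d⁻¹ * w⁻¹)) * w⁻¹) := by group
          rw [e2]
          exact mul_mem (inv_mem k2) (Kn w hw _ k1)
        have h2 : rt (w * w) ∈ Cd := rt_mem h1
        rwa [rt_sq h.A.odd] at h2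
      exact fun w hw => (hle hw).2
    have hd : ∀ x ∈ R, ∀ y ∈ R, ∀ w ∈ R,
        ⁅x, y⁆ * (w * z * w⁻¹) = (w * z * w⁻¹) * ⁅x, y⁆ := by
      intro x hx y hy w hw
      have hdD : ⁅x, y⁆ ∈ D := commutator_mem_commutator hx hy
      obtain ⟨n, hn, v, hv, sn, sv, e⟩ := decomp h.A.odd h.A.ss D Dinv.1 hdD
      have hzw : w * z * w⁻¹ ∈ Ψ := hR.nr w hw z h.zm
      have c1 : v * (w * z * w⁻¹) = (w * z * w⁻¹) * v := ihD v hv sv _ hzw
      have c2 : n * (w * z * w⁻¹) = (w * z * w⁻¹) * n := by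
        have k1 := cm n hn w hw
        set k : M := n * w * n⁻¹ * w⁻¹ with hk
        have k2 := mem_centralizer_iff.1 (mem_inf.1 k1).2 _ hzw
        have e1 : n * w = k * w * n := by rw [hk]; group
        calc n * (w * z * w⁻¹) = (n * w) * z * w⁻¹ := by group
          _ = k * w * (n * z) * w⁻¹ := by rw [e1]; group
          _ = k * w * (z * n) * w⁻¹ := by rw [h.zc n sn]
          _ = k * (w * z * w⁻¹) * (w * n * w⁻¹) := by group
          _ = (w * z * w⁻¹) * (k * w * n) * w⁻¹ := by rw [← k2]; group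
          _ = (w * z * w⁻¹) * n := by rw [← e1]; group
      rw [e, mul_assoc, c1, ← mul_assoc, c2, mul_assoc]
    have hz : ∀ x ∈ R, x * z = z * x := fun x hx =>
      core h hR hd (le_of_eq hne.symm) hx
    exact last h hR hz hx sx ha
  · have hlt : R1 < R := lt_of_le_of_ne R1le hne
    exact ih _ (lt_card R1 hlt) R1 rfl (sub_Rx R1 R1le R1inv) x
      (subset_closure ⟨hx, sx⟩) sx a ha

end Lr

theorem lr_proof : LRStatement.{u} := by
  intro M _ _ s g p q r z Ψ R hA q2 pp rp ne hΨ ab ex zm sz fz zc hR rR nR x hx sx a ha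
  exact Lr.main ⟨hA, q2, pp, rp, ne, hΨ, ab, ex, zm, sz, fz, zc⟩ _ R rfl ⟨hR, rR, nR⟩ x hx sx a ha

end FbZ
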