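import Pool.Agent.Lib.MP_fb3619_al.H90.ZMain
import Pool.Agent.Lib.MP_fb3619_al.H11.Lr

/-! THEOREM Z (finding 4602), unconditional. -/

namespace FbZ

universe u

theorem thmZ : ZStatement.{u} := z_of_lr lr_proof

end FbZ
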